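import Pool.Agent.E8helper55.DB.Stm3

/-! Project DB, piece VOL36. -/

set_option autoImplicit false

namespace Pool.Agent.E8helper64.DB

open Finset Pool.Agent.E8helper55.DB

/-- the sum of the first binomial coefficients -/
def V (n d : ℕ) : ℕ := ∑ i ∈ range (d + 1), n.choose i

theorem V_mono {n m : ℕ} (h : n ≤ m) (d : ℕ) : V n d ≤ V m d :=
  Finset.sum_le_sum fun i _ => Nat.choose_le_choose i h

theorem V_mul (a b c d : ℕ) : V a c * V b d ≤ V (a + b) (c + d) := by
  unfold V
  rw [Finset.sum_mul_sum, ← Finset.sum_product']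
  have hmaps : ∀ x ∈ range (c + 1) ×ˢ range (d + 1), x.1 + x.2 ∈ range (c + d + 1) := by
    intro x hx
    rw [mem_product, mem_range, mem_range] at hx
    rw [mem_range]
    omega
  rw [← Finset.sum_fiberwise_of_maps_to hmaps]
  apply Finset.sum_le_sum
  intro k _
  rw [Nat.add_choose_eq]
  apply Finset.sum_le_sum_of_subset
  intro x hx
  rw [mem_filter] at hx
  rw [HasAntidiagonal.mem_antidiagonal]
  exact hx.2

theorem V_num : 2 ^ 100 ≤ 36 * V 100 40 := by
  unfold V
  norm_num [Finset.sum_range_succ, Nat.choose]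

theorem V_pow (q : ℕ) : 2 ^ (100 * q) ≤ 36 ^ q * V (100 * q) (40 * q) := by
  induction q with
  | zero => simp [V]
  | succ q ih =>
    calc 2 ^ (100 * (q + 1)) = 2 ^ (100 * q) * 2 ^ 100 := by rw [← pow_add]; ring_nf
      _ ≤ (36 ^ q * V (100 * q) (40 * q)) * (36 * V 100 40) := Nat.mul_le_mul ih V_num
      _ = 36 ^ (q + 1) * (V (100 * q) (40 * q) * V 100 40) := by ring
      _ ≤ 36 ^ (q + 1) * V (100 * q + 100) (40 * q + 40) :=
        Nat.mul_le_mul_left _ (V_mul _ _ _ _)
      _ = 36 ^ (q + 1) * V (100 * (q + 1)) (40 * (q + 1)) := by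
        rw [Nat.mul_succ, Nat.mul_succ]

theorem vol36_holds : VOL36 := by
  intro n q h
  have h1 : 2 ^ (100 * q) ≤ 36 ^ q * V n (40 * q) :=
    (V_pow q).trans (Nat.mul_le_mul_left _ (V_mono h _))
  exact_mod_cast h1

end Pool.Agent.E8helper64.DB
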